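import Pool.Agent.H3.RCR.Stmts2

/-! # RCR, module D1: the rectilinear crossing number is attained -/

namespace Pool.Agent.H3.RCR

/-- the points `(i, i²)` -/
noncomputable def parab {n : ℕ} (i : Fin n) : Pt := ((i.val : ℝ), (i.val : ℝ) ^ 2)

theorem parab_isDrawing {n : ℕ} (G : SimpleGraph (Fin n)) : IsDrawing G parab := by
  refine ⟨?_, ?_⟩
  · intro a b h
    have := congrArg Prod.fst h
    simp only [parab, Nat.cast_inj] at this
    exact Fin.ext this
  · intro a b c _ h
    obtain ⟨s, t, _, _, hst, h⟩ := h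
    have h1 := congrArg Prod.fst h
    have h2 := congrArg Prod.snd h
    simp only [parab, Prod.fst_add, Prod.smul_fst, Prod.snd_add, Prod.smul_snd, smul_eq_mul] at h1 h2
    have h3 : ((c.val : ℝ) - a.val) * ((c.val : ℝ) - b.val) = 0 := by
      have hs : s = 1 - t := by linarith
      subst hs
      have e1 : (c.val : ℝ) ^ 2 = (1 - t) * (a.val : ℝ) ^ 2 + t * (b.val : ℝ) ^ 2 := by
        linarith
      have e2 : (c.val : ℝ) = (1 - t) * (a.val : ℝ) + t * (b.val : ℝ) := by linarith
      have : ((c.val : ℝ) - a.val) * ((c.val : ℝ) - b.val)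
          = (c.val : ℝ) ^ 2 - ((a.val : ℝ) + b.val) * c.val + a.val * b.val := by ring
      rw [this, e1, e2]
      ring
    rcases mul_eq_zero.1 h3 with h4 | h4
    · left
      exact Fin.ext (by exact_mod_cast sub_eq_zero.1 h4)
    · right
      exact Fin.ext (by exact_mod_cast sub_eq_zero.1 h4)

theorem d1 : D1Stmt := by
  intro n k G
  constructor
  · intro h
    have hne : {m | ∃ p : Fin n → Pt, IsDrawing G p ∧ crossings G p = m}.Nonempty :=
      ⟨_, parab, parab_isDrawing G, rfl⟩
    obtain ⟨p, hp, hm⟩ := Nat.sInf_mem hne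
    exact ⟨p, hp, by rw [hm]; exact h⟩
  · rintro ⟨p, hp, hk⟩
    have h : rcr G ≤ crossings G p := Nat.sInf_le
      (show crossings G p ∈ {m | ∃ p : Fin n → Pt, IsDrawing G p ∧ crossings G p = m} from
        ⟨p, hp, rfl⟩)
    exact h.trans hk

end Pool.Agent.H3.RCR
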