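import Pool.Agent.H3.RCR.Stmts2

/-! # RCR, module D2: from a triangulation to a drawing -/

namespace Pool.Agent.H3.RCR

theorem d2_between {A B C D : Pt} (h1 : B ∈ openSegment ℝ A C) (h2 : C ∈ openSegment ℝ B D) :
    B ∈ openSegment ℝ A D := by
  obtain ⟨a, b, ha, hb, hab, e1⟩ := h1
  obtain ⟨c, d, hc, hd, hcd, e2⟩ := h2
  have hp : 0 < a + b * d := by positivity
  refine ⟨a / (a + b * d), b * d / (a + b * d), by positivity, by positivity, ?_, ?_⟩
  · field_simp
  · have h3 : (a + b * d) • B = a • A + (b * d) • D := by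
      have h4 : B = a • A + b • (c • B + d • D) := by rw [e2, e1]
      have h5 : a + b * d = 1 - b * c := by
        have : c = 1 - d := by linarith
        subst this
        have : a = 1 - b := by linarith
        subst this
        ring
      rw [h5, sub_smul, one_smul]
      nth_rewrite 1 [h4]
      simp only [smul_add, smul_smul]
      abel
    have h6 : B = (a + b * d)⁻¹ • ((a + b * d) • B) := by
      rw [smul_smul, inv_mul_cancel₀ hp.ne', one_smul]
    conv_rhs => rw [h6, h3]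
    rw [smul_add, smul_smul, smul_smul]
    congr 2 <;> field_simp

theorem d2_first (p : ℕ → Pt) : ∀ (l : List ℕ) (x x1 y : ℕ),
    (∀ a b c, [a, b, c] <:+: (x :: x1 :: (l ++ [y])) → p b ∈ openSegment ℝ (p a) (p c)) →
    p x1 ∈ openSegment ℝ (p x) (p y)
  | [], x, x1, y, h => h x x1 y (List.infix_refl _)
  | x2 :: l, x, x1, y, h => by
    have h1 : p x1 ∈ openSegment ℝ (p x) (p x2) := h _ _ _ ⟨[], l ++ [y], by simp⟩
    have h2 : p x2 ∈ openSegment ℝ (p x1) (p y) :=
      d2_first p l x1 x2 y (fun a b c habc => h a b c (habc.trans ⟨[x], [], by simp⟩))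
    exact d2_between h1 h2

theorem d2_cover (p : ℕ → Pt) : ∀ (l : List ℕ) (x y : ℕ),
    (∀ a b c, [a, b, c] <:+: (x :: (l ++ [y])) → p b ∈ openSegment ℝ (p a) (p c)) →
    ∀ z ∈ segment ℝ (p x) (p y), (∃ w ∈ x :: (l ++ [y]), z = p w) ∨
      ∃ u v, [u, v] <:+: (x :: (l ++ [y])) ∧ z ∈ openSegment ℝ (p u) (p v)
  | [], x, y, _, z, hz => by
    rw [← insert_endpoints_openSegment] at hz
    rcases hz with rfl | rfl | hz
    · exact Or.inl ⟨x, by simp, rfl⟩
    · exact Or.inl ⟨y, by simp, rfl⟩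
    · exact Or.inr ⟨x, y, List.infix_refl _, hz⟩
  | x1 :: l, x, y, h, z, hz => by
    have hb : p x1 ∈ openSegment ℝ (p x) (p y) := d2_first p l x x1 y h
    rw [← insert_endpoints_openSegment] at hz
    rcases hz with rfl | rfl | hz
    · exact Or.inl ⟨x, by simp, rfl⟩
    · exact Or.inl ⟨y, by simp, rfl⟩
    · have hr : p x1 ∈ Set.range (AffineMap.lineMap (p x) (p y) : ℝ → Pt) := by
        rw [openSegment_eq_image_lineMap] at hb
        obtain ⟨t, -, ht⟩ := hb
        exact ⟨t, ht⟩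
      have := openSegment_subset_union (p x) (p y) hr hz
      rcases this with rfl | hz | hz
      · exact Or.inl ⟨x1, by simp, rfl⟩
      · exact Or.inr ⟨x, x1, ⟨[], l ++ [y], by simp⟩, hz⟩
      · have hsub : (x1 :: (l ++ [y])) <:+: (x :: ((x1 :: l) ++ [y])) := ⟨[x], [], by simp⟩
        rcases d2_cover p l x1 y (fun a b c habc => h a b c (habc.trans hsub)) z
          (openSegment_subset_segment ℝ _ _ hz) with ⟨w, hw, e⟩ | ⟨u, v, huv, hz'⟩
        · exact Or.inl ⟨w, hsub.subset hw, e⟩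
        · exact Or.inr ⟨u, v, huv.trans hsub, hz'⟩

theorem d2_infix_adj {R : ℕ → ℕ → Prop} {l : List ℕ} (h : List.IsChain R l) {x y : ℕ}
    (hxy : [x, y] <:+: l) : R x y := by
  obtain ⟨s, t, rfl⟩ := hxy
  exact (List.isChain_iff_forall_rel_of_append_cons_cons.1 h) (l₁ := s) (l₂ := t) (by simp)

theorem d2_chain_mem {F : Finset Tri} (hF : Pre F) {x y : ℕ} {l : List ℕ}
    (h : List.IsChain (Adj F) (x :: (l ++ [y]))) : ∀ w ∈ x :: (l ++ [y]), w ∈ verts F := by
  intro w hw
  obtain ⟨s, t, hst⟩ := List.append_of_mem hw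
  cases t with
  | nil =>
    -- `w` is the last element
    rcases List.eq_nil_or_concat s with rfl | ⟨s', u, rfl⟩
    · exfalso
      have := congrArg List.length hst
      simp at this
    · have : [u, w] <:+: (x :: (l ++ [y])) := ⟨s', [], by rw [hst]; simp⟩
      exact hF.mem_right (d2_infix_adj h this)
  | cons u t =>
    have : [w, u] <:+: (x :: (l ++ [y])) := ⟨s, t, by rw [hst]; simp⟩
    exact Pre.mem_left (d2_infix_adj h this)

theorem d2 (h6 : G6Stmt) : D2Stmt := by
  intro n k G F o Ch ι P p hF hreal hch hw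
  obtain ⟨hinj, -, hve, hee, -, -⟩ := h6 F o p hF hreal
  have htrip : ∀ a b, a < b → G.Adj a b → ∀ x y z, [x, y, z] <:+: (ι a :: (P a b ++ [ι b])) →
      p y ∈ openSegment ℝ (p x) (p z) := fun a b hab hG x y z h =>
    (hch _ (hw.trip a b hab hG x y z h)).2
  have hmemV : ∀ a b, a < b → G.Adj a b → ∀ w ∈ ι a :: (P a b ++ [ι b]), w ∈ verts F :=
    fun a b hab hG => d2_chain_mem hF.toPre (hw.chain a b hab hG)
  -- where is a vertex on a segment
  have key1 : ∀ a b c, a < b → G.Adj a b → p (ι c) ∈ segment ℝ (p (ι a)) (p (ι b)) →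
      c = a ∨ c = b := by
    intro a b c hab hG hc
    rcases d2_cover p (P a b) (ι a) (ι b) (htrip a b hab hG) _ hc with ⟨w, hw1, e⟩ | ⟨u, v, huv, hz⟩
    · have e' : ι c = w := hinj _ (hw.mem c) _ (hmemV a b hab hG w hw1) e
      subst e'
      simp only [List.mem_cons, List.mem_append, List.not_mem_nil, or_false] at hw1
      rcases hw1 with h | h | h
      · exact Or.inl (hw.inj h)
      · exact absurd h (hw.new a b hab hG c)
      · exact Or.inr (hw.inj h)
    · exact absurd hz (hve u v (ι c) (d2_infix_adj (hw.chain a b hab hG) huv) (hw.mem c))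
  -- crossings
  have key2 : ∀ a b c d, a < b → c < d → G.Adj a b → G.Adj c d → a ≠ c → a ≠ d → b ≠ c → b ≠ d →
      (segment ℝ (p (ι a)) (p (ι b)) ∩ segment ℝ (p (ι c)) (p (ι d))).Nonempty →
      ∃ x, x ∈ P a b ∧ x ∈ P c d := by
    intro a b c d hab hcd hG1 hG2 hac had hbc hbd ⟨z, hz1, hz2⟩
    have hfin : ∀ x, x ∈ ι a :: (P a b ++ [ι b]) → x ∈ ι c :: (P c d ++ [ι d]) →
        ∃ x, x ∈ P a b ∧ x ∈ P c d := by
      intro x hx1 hx2
      simp only [List.mem_cons, List.mem_append, List.not_mem_nil, or_false] at hx1 hx2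
      rcases hx1 with h | h | h
      · subst h
        rcases hx2 with h | h | h
        · exact absurd (hw.inj h) hac
        · exact absurd h (hw.new c d hcd hG2 a)
        · exact absurd (hw.inj h) had
      · rcases hx2 with h' | h' | h'
        · subst h'
          exact absurd h (hw.new a b hab hG1 c)
        · exact ⟨x, h, h'⟩
        · subst h'
          exact absurd h (hw.new a b hab hG1 d)
      · subst h
        rcases hx2 with h | h | h
        · exact absurd (hw.inj h) hbc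
        · exact absurd h (hw.new c d hcd hG2 b)
        · exact absurd (hw.inj h) hbd
    rcases d2_cover p (P a b) (ι a) (ι b) (htrip a b hab hG1) _ hz1 with
      ⟨w, hw1, e⟩ | ⟨u, v, huv, hz⟩
    · rcases d2_cover p (P c d) (ι c) (ι d) (htrip c d hcd hG2) _ hz2 with
        ⟨w', hw2, e'⟩ | ⟨u', v', huv', hz'⟩
      · have : w = w' := hinj _ (hmemV a b hab hG1 w hw1) _ (hmemV c d hcd hG2 w' hw2)
          (e.symm.trans e')
        subst this
        exact hfin w hw1 hw2
      · exfalso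
        rw [e] at hz'
        exact hve u' v' w (d2_infix_adj (hw.chain c d hcd hG2) huv') (hmemV a b hab hG1 w hw1) hz'
    · rcases d2_cover p (P c d) (ι c) (ι d) (htrip c d hcd hG2) _ hz2 with
        ⟨w', hw2, e'⟩ | ⟨u', v', huv', hz'⟩
      · exfalso
        rw [e'] at hz
        exact hve u v w' (d2_infix_adj (hw.chain a b hab hG1) huv) (hmemV c d hcd hG2 w' hw2) hz
      · rcases hee u v u' v' z (d2_infix_adj (hw.chain a b hab hG1) huv)
          (d2_infix_adj (hw.chain c d hcd hG2) huv') hz hz' with ⟨rfl, rfl⟩ | ⟨rfl, rfl⟩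
        · exact hfin u (huv.subset (by simp)) (huv'.subset (by simp))
        · exact hfin u (huv.subset (by simp)) (huv'.subset (by simp))
  refine ⟨⟨?_, ?_⟩, ?_⟩
  · intro a b h
    exact hw.inj (hinj _ (hw.mem a) _ (hw.mem b) h)
  · intro a b c hG hc
    rcases lt_trichotomy a b with hab | hab | hab
    · exact key1 a b c hab hG hc
    · exact absurd hab hG.ne
    · rw [segment_symm] at hc
      exact (key1 b a c hab hG.symm hc).symm
  · refine le_trans ?_ hw.cross
    unfold crossings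
    refine le_trans (Set.ncard_le_ncard (t := (fun q : (Fin n × Fin n) × (Fin n × Fin n) =>
      s(s(q.1.1, q.1.2), s(q.2.1, q.2.2))) '' {q : (Fin n × Fin n) × (Fin n × Fin n) |
        q.1.1 < q.1.2 ∧ q.2.1 < q.2.2 ∧
        q.1.1 < q.2.1 ∧ q.1.2 ≠ q.2.1 ∧ q.1.2 ≠ q.2.2 ∧ G.Adj q.1.1 q.1.2 ∧ G.Adj q.2.1 q.2.2 ∧
        ∃ x, x ∈ P q.1.1 q.1.2 ∧ x ∈ P q.2.1 q.2.2}) ?_ (Set.toFinite _))
      (Set.ncard_image_le (Set.toFinite _))
    rintro q ⟨a, b, c, d, rfl, hG1, hG2, hac, had, hbc, hbd, hz⟩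
    -- order the pairs
    have main : ∀ a b c d, a < b → c < d → G.Adj a b → G.Adj c d → a ≠ c → a ≠ d → b ≠ c → b ≠ d →
        (segment ℝ (p (ι a)) (p (ι b)) ∩ segment ℝ (p (ι c)) (p (ι d))).Nonempty →
        s(s(a, b), s(c, d)) ∈ (fun q : (Fin n × Fin n) × (Fin n × Fin n) =>
      s(s(q.1.1, q.1.2), s(q.2.1, q.2.2))) '' {q : (Fin n × Fin n) × (Fin n × Fin n) |
        q.1.1 < q.1.2 ∧ q.2.1 < q.2.2 ∧
        q.1.1 < q.2.1 ∧ q.1.2 ≠ q.2.1 ∧ q.1.2 ≠ q.2.2 ∧ G.Adj q.1.1 q.1.2 ∧ G.Adj q.2.1 q.2.2 ∧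
        ∃ x, x ∈ P q.1.1 q.1.2 ∧ x ∈ P q.2.1 q.2.2} := by
      intro a b c d hab hcd hG1 hG2 hac had hbc hbd hz
      obtain ⟨x, hx1, hx2⟩ := key2 a b c d hab hcd hG1 hG2 hac had hbc hbd hz
      rcases lt_or_gt_of_ne hac with h | h
      · exact ⟨((a, b), (c, d)), ⟨hab, hcd, h, hbc, hbd, hG1, hG2, x, hx1, hx2⟩, rfl⟩
      · exact ⟨((c, d), (a, b)), ⟨hcd, hab, h, had.symm, hbd.symm, hG2, hG1, x, hx2, hx1⟩,
          Sym2.eq_swap⟩
    rcases lt_or_gt_of_ne hG1.ne with h1 | h1
    · rcases lt_or_gt_of_ne hG2.ne with h2 | h2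
      · exact main a b c d h1 h2 hG1 hG2 hac had hbc hbd hz
      · have := main a b d c h1 h2 hG1 hG2.symm had hac hbd hbc
          (by rw [segment_symm ℝ (p (ι d))]; exact hz)
        rwa [Sym2.eq_swap (a := d) (b := c)] at this
    · rcases lt_or_gt_of_ne hG2.ne with h2 | h2
      · have := main b a c d h1 h2 hG1.symm hG2 hbc hbd hac had
          (by rw [segment_symm ℝ (p (ι b))]; exact hz)
        rwa [Sym2.eq_swap (a := b) (b := a)] at this
      · have := main b a d c h1 h2 hG1.symm hG2.symm hbd hbc had hac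
          (by rw [segment_symm ℝ (p (ι d)), segment_symm ℝ (p (ι b))]; exact hz)
        rwa [Sym2.eq_swap (a := b) (b := a), Sym2.eq_swap (a := d) (b := c)] at this

end Pool.Agent.H3.RCR
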