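import Pool.Agent.H60.RCR.D3b

/-! # RCR, module D3, part 3: from a drawing to a triangulation -/

namespace Pool.Agent.H3.RCR

theorem d3_oseg_iff {A B : Pt} (h : A ≠ B) {s t : ℝ} (hst : s < t) {z : Pt} :
    z ∈ openSegment ℝ (d3f A B s) (d3f A B t) ↔ ∃ u, s < u ∧ u < t ∧ z = d3f A B u := by
  rw [d3f_oseg, openSegment_eq_Ioo hst]
  constructor
  · rintro ⟨u, ⟨h1, h2⟩, rfl⟩; exact ⟨u, h1, h2, rfl⟩
  · rintro ⟨u, h1, h2, rfl⟩; exact ⟨u, ⟨h1, h2⟩, rfl⟩

theorem d3_isV_iff {x : ℕ} {a b c : ℕ} : isV x (a, b, c) ↔ x = a ∨ x = b ∨ x = c := Iff.rfl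

theorem d3 (h13 : G13Stmt) : D3Stmt := by
  classical
  intro n k G p hD hk
  obtain ⟨X, E1, hXk, hE1k, hX, hE1⟩ := d3_cross hD hk
  obtain ⟨A, B, C, hneg, hAB, hBC, hCA, hA, hB, hC, hin⟩ := d3_outer p
  -- the lists
  have hex : ∀ a b : Fin n, ∃ L : List ℝ, L.Pairwise (· < ·) ∧ L.length ≤ X.card ∧
      (∀ t ∈ L, 0 < t ∧ t < 1) ∧
      (G.Adj a b → ∀ t, t ∈ L ↔ 0 < t ∧ t < 1 ∧ d3f (p a) (p b) t ∈ X) := by
    intro a b
    by_cases hab : a = b
    · exact ⟨[], List.Pairwise.nil, by simp, by simp, fun h => absurd hab h.ne⟩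
    · obtain ⟨L, h1, h2, h3⟩ := d3_list (p a) (p b) X (fun h => hab (hD.1 h))
      exact ⟨L, h1, h2, fun t ht => ⟨((h3 t).1 ht).1, ((h3 t).1 ht).2.1⟩, fun _ => h3⟩
  choose L hLs hLl hL01 hLX using hex
  -- the labels
  set Z : Finset Pt := Finset.univ.image p ∪ X ∪ {A, B, C} with hZ
  obtain ⟨lab, q, hlab, hq⟩ := d3_label Z
  set S : Finset ℕ := Finset.range Z.card with hS
  have hZp : ∀ a, p a ∈ Z := fun a => by simp [hZ]
  have hZX : ∀ z ∈ X, z ∈ Z := fun z hz => by simp [hZ, hz]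
  have hZA : A ∈ Z := by simp [hZ]
  have hZB : B ∈ Z := by simp [hZ]
  have hZC : C ∈ Z := by simp [hZ]
  have hZ' : ∀ z ∈ Z, (∃ a, z = p a) ∨ z ∈ X ∨ z = A ∨ z = B ∨ z = C := by
    intro z hz
    simp only [hZ, Finset.mem_union, Finset.mem_image, Finset.mem_univ, true_and,
      Finset.mem_insert, Finset.mem_singleton] at hz
    rcases hz with (⟨a, rfl⟩ | hz) | hz
    · exact Or.inl ⟨a, rfl⟩
    · exact Or.inr (Or.inl hz)
    · exact Or.inr (Or.inr hz)
  have hqlab : ∀ z ∈ Z, q (lab z) = z := fun z hz => (hlab z hz).2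
  have hlabS : ∀ z ∈ Z, lab z ∈ S := fun z hz => (hlab z hz).1
  have hinX : ∀ z ∈ X, D3In A B C z := by
    intro z hz
    obtain ⟨a, b, c, d, h⟩ := (hX z).1 hz
    exact (hin a).seg (hin b) h.2.2.2.2.2.2.1
  have hXne : ∀ z ∈ X, ∀ v, z ≠ p v := by
    intro z hz v
    obtain ⟨a, b, c, d, h⟩ := (hX z).1 hz
    exact h.ne hD v
  -- the paths
  let g : Fin n → Fin n → ℝ → ℕ := fun a b t => lab (d3f (p a) (p b) t)
  let M : Fin n → Fin n → List ℝ := fun a b => 0 :: (L a b ++ [1])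
  let P : Fin n → Fin n → List ℕ := fun a b => (L a b).map (g a b)
  let ι : Fin n → ℕ := fun a => lab (p a)
  have hQ : ∀ a b, ι a :: (P a b ++ [ι b]) = (M a b).map (g a b) := by
    intro a b
    simp [ι, P, M, g]
  have hMs : ∀ a b, (M a b).Pairwise (· < ·) := by
    intro a b
    simp only [M, List.pairwise_cons, List.pairwise_append, List.mem_append, List.mem_singleton]
    refine ⟨?_, hLs a b, by simp, ?_⟩
    · rintro t (ht | rfl)
      · exact (hL01 a b t ht).1
      · exact one_pos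
    · rintro t ht u rfl
      exact (hL01 a b t ht).2
  have hM01 : ∀ a b, ∀ t ∈ M a b, t = 0 ∨ t = 1 ∨ t ∈ L a b := by
    intro a b t ht
    simp only [M, List.mem_cons, List.mem_append, List.not_mem_nil, or_false] at ht
    tauto
  have hMb : ∀ a b, ∀ t ∈ M a b, 0 ≤ t ∧ t ≤ 1 := by
    intro a b t ht
    rcases hM01 a b t ht with rfl | rfl | h
    · exact ⟨le_rfl, zero_le_one⟩
    · exact ⟨zero_le_one, le_rfl⟩
    · exact ⟨(hL01 a b t h).1.le, (hL01 a b t h).2.le⟩
  have hMZ : ∀ a b, G.Adj a b → ∀ t ∈ M a b, d3f (p a) (p b) t ∈ Z := by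
    intro a b hab t ht
    rcases hM01 a b t ht with rfl | rfl | h
    · rw [d3f_zero]; exact hZp a
    · rw [d3f_one]; exact hZp b
    · exact hZX _ ((hLX a b hab t).1 h).2.2
  have hqg : ∀ a b, G.Adj a b → ∀ t ∈ M a b, q (g a b t) = d3f (p a) (p b) t :=
    fun a b hab t ht => hqlab _ (hMZ a b hab t ht)
  have hgS : ∀ a b, G.Adj a b → ∀ t ∈ M a b, g a b t ∈ S :=
    fun a b hab t ht => hlabS _ (hMZ a b hab t ht)
  have hpab : ∀ a b, G.Adj a b → p a ≠ p b := fun a b hab h => hab.ne (hD.1 h)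
  -- points on an open piece of an edge
  have hopen : ∀ a b, G.Adj a b → ∀ s t, [s, t] <:+: M a b → ∀ u, s < u → u < t →
      d3f (p a) (p b) u ∉ Z := by
    intro a b hab s t hst u hsu hut hz
    obtain ⟨hs, ht, hlt, hno⟩ := d3_consec (hMs a b) hst
    have hu0 : 0 < u := (hMb a b s hs).1.trans_lt hsu
    have hu1 : u < 1 := hut.trans_le (hMb a b t ht).2
    have hseg : d3f (p a) (p b) u ∈ segment ℝ (p a) (p b) := d3_mem_seg.2 ⟨u, hu0.le, hu1.le, rfl⟩
    have hI : D3In A B C (d3f (p a) (p b) u) := (hin a).seg (hin b) hseg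
    rcases hZ' _ hz with ⟨v, hv⟩ | hx | h | h | h
    · rw [hv] at hseg
      rcases hD.2 _ _ _ hab hseg with rfl | rfl
      · have := d3f_inj (hpab _ _ hab) (hv.trans (d3f_zero _ _).symm)
        exact hu0.ne' this
      · have := d3f_inj (hpab _ _ hab) (hv.trans (d3f_one _ _).symm)
        exact hu1.ne this
    · have : u ∈ L a b := (hLX a b hab u).2 ⟨hu0, hu1, hx⟩
      exact hno u (by simp [M, this]) ⟨hsu, hut⟩
    · rw [h] at hI; exact hA hI
    · rw [h] at hI; exact hB hI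
    · rw [h] at hI; exact hC hI
  have hinfix : ∀ a b x y, [x, y] <:+: (ι a :: (P a b ++ [ι b])) →
      ∃ s t, [s, t] <:+: M a b ∧ x = g a b s ∧ y = g a b t := by
    intro a b x y h
    rw [hQ, List.infix_map_iff] at h
    obtain ⟨l, hl, e⟩ := h
    match l, e with
    | [s, t], e =>
      simp only [List.map_cons, List.map_nil, List.cons.injEq, and_true] at e
      exact ⟨s, t, hl, e.1, e.2⟩
  have hinfix3 : ∀ a b x y z, [x, y, z] <:+: (ι a :: (P a b ++ [ι b])) →
      ∃ s t u, [s, t, u] <:+: M a b ∧ x = g a b s ∧ y = g a b t ∧ z = g a b u := by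
    intro a b x y z h
    rw [hQ, List.infix_map_iff] at h
    obtain ⟨l, hl, e⟩ := h
    match l, e with
    | [s, t, u], e =>
      simp only [List.map_cons, List.map_nil, List.cons.injEq, and_true] at e
      exact ⟨s, t, u, hl, e.1, e.2.1, e.2.2⟩
  -- the constraints
  set E : Finset (ℕ × ℕ) := (S ×ˢ S).filter (fun e => ∃ a b, a < b ∧ G.Adj a b ∧
    [e.1, e.2] <:+: (ι a :: (P a b ++ [ι b]))) with hE
  set Ch : Finset Tri := (S ×ˢ S ×ˢ S).filter (fun t => ∃ a b, a < b ∧ G.Adj a b ∧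
    [t.1, t.2.1, t.2.2] <:+: (ι a :: (P a b ++ [ι b]))) with hCh
  have hEmem : ∀ a b x y, a < b → G.Adj a b → [x, y] <:+: (ι a :: (P a b ++ [ι b])) →
      (x, y) ∈ E := by
    intro a b x y hab hG h
    obtain ⟨s, t, hst, rfl, rfl⟩ := hinfix a b x y h
    obtain ⟨hs, ht, -⟩ := d3_consec (hMs a b) hst
    simp only [hE, Finset.mem_filter, Finset.mem_product]
    exact ⟨⟨hgS a b hG s hs, hgS a b hG t ht⟩, a, b, hab, hG, h⟩
  have hE' : ∀ e ∈ E, ∃ a b, a < b ∧ G.Adj a b ∧ ∃ s t, [s, t] <:+: M a b ∧ e = (g a b s, g a b t) := by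
    intro e he
    simp only [hE, Finset.mem_filter] at he
    obtain ⟨-, a, b, hab, hG, h⟩ := he
    obtain ⟨s, t, hst, e1, e2⟩ := hinfix a b _ _ h
    exact ⟨a, b, hab, hG, s, t, hst, Prod.ext e1 e2⟩
  set o : Tri := (lab A, lab B, lab C) with ho
  -- apply the triangulation theorem
  have hq1 : ∀ x, isV x o → x ∈ S := by
    rintro x (rfl | rfl | rfl)
    · exact hlabS _ hZA
    · exact hlabS _ hZB
    · exact hlabS _ hZC
  have hq2 : orient (q o.1) (q o.2.1) (q o.2.2) < 0 := by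
    simp only [ho]
    rw [hqlab _ hZA, hqlab _ hZB, hqlab _ hZC]
    exact hneg
  have hq3 : Set.InjOn q S := by
    intro i hi j hj h
    rw [← (hq i hi).2, ← (hq j hj).2, h]
  have hq4 : ∀ s ∈ S, ¬ isV s o → InN q o (q s) := by
    intro s hs hv
    have : D3In A B C (q s) := by
      rcases hZ' _ (hq s hs).1 with ⟨v, h⟩ | hx | h | h | h
      · rw [h]; exact hin v
      · exact hinX _ hx
      · exact absurd (Or.inl ((hq s hs).2.symm.trans (congrArg lab h))) hv
      · exact absurd (Or.inr (Or.inl ((hq s hs).2.symm.trans (congrArg lab h)))) hv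
      · exact absurd (Or.inr (Or.inr ((hq s hs).2.symm.trans (congrArg lab h)))) hv
    simp only [InN, ho]
    rw [hqlab _ hZA, hqlab _ hZB, hqlab _ hZC]
    exact this
  have hq5 : ∀ e ∈ E, e.1 ∈ S ∧ e.2 ∈ S ∧ e.1 ≠ e.2 ∧ ∀ s ∈ S, q s ∉ openSegment ℝ (q e.1) (q e.2) := by
    intro e he
    obtain ⟨a, b, hab, hG, s, t, hst, rfl⟩ := hE' e he
    obtain ⟨hs, ht, hlt, hno⟩ := d3_consec (hMs a b) hst
    refine ⟨hgS a b hG s hs, hgS a b hG t ht, ?_, ?_⟩
    · intro h
      have h' : q (g a b s) = q (g a b t) := congrArg q h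
      rw [hqg a b hG s hs, hqg a b hG t ht] at h'
      exact hlt.ne (d3f_inj (hpab _ _ hG) h')
    · intro v hv hz
      simp only [] at hz
      rw [hqg a b hG s hs, hqg a b hG t ht, d3_oseg_iff (hpab _ _ hG) hlt] at hz
      obtain ⟨u, h1, h2, h3⟩ := hz
      exact hopen a b hG s t hst u h1 h2 (h3 ▸ (hq v hv).1)
  have hq6 : ∀ e ∈ E, ∀ f ∈ E, ∀ z, z ∈ openSegment ℝ (q e.1) (q e.2) →
      z ∈ openSegment ℝ (q f.1) (q f.2) → e = f ∨ e = (f.2, f.1) := by
    intro e he f hf z hz hz'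
    obtain ⟨a, b, hab, hG, s, t, hst, rfl⟩ := hE' e he
    obtain ⟨c, d, hcd, hG', s', t', hst', rfl⟩ := hE' f hf
    obtain ⟨hs, ht, hlt, hno⟩ := d3_consec (hMs a b) hst
    obtain ⟨hs', ht', hlt', hno'⟩ := d3_consec (hMs c d) hst'
    simp only [] at hz hz'
    rw [hqg a b hG s hs, hqg a b hG t ht, d3_oseg_iff (hpab _ _ hG) hlt] at hz
    rw [hqg c d hG' s' hs', hqg c d hG' t' ht', d3_oseg_iff (hpab _ _ hG') hlt'] at hz'
    obtain ⟨u, h1, h2, rfl⟩ := hz
    obtain ⟨u', h1', h2', h3'⟩ := hz'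
    have hnZ := hopen a b hG s t hst u h1 h2
    have hseg : d3f (p a) (p b) u ∈ segment ℝ (p a) (p b) := d3_mem_seg.2
      ⟨u, ((hMb a b s hs).1.trans_lt h1).le, (h2.trans_le (hMb a b t ht).2).le, rfl⟩
    have hseg' : d3f (p a) (p b) u ∈ segment ℝ (p c) (p d) := by
      rw [h3']
      exact d3_mem_seg.2
        ⟨u', ((hMb c d s' hs').1.trans_lt h1').le, (h2'.trans_le (hMb c d t' ht').2).le, rfl⟩
    by_cases hac : a = c
    · subst hac
      by_cases hbd : b = d
      · subst hbd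
        left
        have huu := d3f_inj (hpab _ _ hG) h3'
        subst huu
        have e1 : s = s' := by
          rcases lt_trichotomy s s' with h | h | h
          · exact absurd ⟨h, h1'.trans h2⟩ (hno s' hs')
          · exact h
          · exact absurd ⟨h, h1.trans h2'⟩ (hno' s hs)
        have e2 : t = t' := by
          rcases lt_trichotomy t t' with h | h | h
          · exact absurd ⟨h1'.trans h2, h⟩ (hno' t ht)
          · exact h
          · exact absurd ⟨h1.trans h2', h⟩ (hno t' ht')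
        rw [e1, e2]
      · exfalso
        exact hnZ (by rw [d3_adj hD hG hG' hbd hseg hseg']; exact hZp a)
    exfalso
    by_cases had : a = d
    · subst had
      have hbc : b ≠ c := fun h => by
        subst h
        exact lt_irrefl _ (hab.trans hcd)
      rw [segment_symm] at hseg'
      exact hnZ (by rw [d3_adj hD hG hG'.symm hbc hseg hseg']; exact hZp a)
    by_cases hbc : b = c
    · subst hbc
      rw [segment_symm] at hseg
      exact hnZ (by rw [d3_adj hD hG.symm hG' had hseg hseg']; exact hZp b)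
    by_cases hbd : b = d
    · subst hbd
      rw [segment_symm] at hseg hseg'
      exact hnZ (by rw [d3_adj hD hG.symm hG'.symm hac hseg hseg']; exact hZp b)
    exact hnZ (hZX _ ((hX _).2 ⟨a, b, c, d, hG, hG', hac, had, hbc, hbd, hseg, hseg'⟩))
  obtain ⟨F, hF, hreal, hverts, hadj⟩ := h13 S q o E hq1 hq2 hq3 hq4 hq5 hq6
  have hadj' : ∀ a b x y, a < b → G.Adj a b → [x, y] <:+: (ι a :: (P a b ++ [ι b])) → Adj F x y :=
    fun a b x y hab hG h => hadj (x, y) (hEmem a b x y hab hG h)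
  -- the terminals
  set T : Finset ℕ := E1.image (fun a => lab (p a)) ∪ X.image lab ∪ {lab A, lab B, lab C} with hT
  have hTX : ∀ z ∈ X, lab z ∈ T := by
    intro z hz
    simp only [hT, Finset.mem_union, Finset.mem_image]
    exact Or.inl (Or.inr ⟨z, hz, rfl⟩)
  have hTE : ∀ a ∈ E1, lab (p a) ∈ T := by
    intro a ha
    simp only [hT, Finset.mem_union, Finset.mem_image]
    exact Or.inl (Or.inl ⟨a, ha, rfl⟩)
  have hTcard : T.card ≤ 5 * k + 3 := by
    have h1 : T.card ≤ (E1.image (fun a => lab (p a)) ∪ X.image lab).card +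
        ({lab A, lab B, lab C} : Finset ℕ).card := Finset.card_union_le _ _
    have h2 : (E1.image (fun a => lab (p a)) ∪ X.image lab).card ≤
        (E1.image (fun a => lab (p a))).card + (X.image lab).card := Finset.card_union_le _ _
    have h3 : (E1.image (fun a => lab (p a))).card ≤ E1.card := Finset.card_image_le
    have h4 : (X.image lab).card ≤ X.card := Finset.card_image_le
    have h5 : ({lab A, lab B, lab C} : Finset ℕ).card ≤ 3 := Finset.card_le_three
    omega
  have hZcard : Z.card ≤ n + k + 3 := by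
    have h1 : Z.card ≤ (Finset.univ.image p ∪ X).card + ({A, B, C} : Finset Pt).card :=
      Finset.card_union_le _ _
    have h2 : (Finset.univ.image p ∪ X).card ≤ (Finset.univ.image p).card + X.card :=
      Finset.card_union_le _ _
    have h3 : (Finset.univ.image p).card ≤ n := by
      have : (Finset.univ.image p).card ≤ (Finset.univ : Finset (Fin n)).card :=
        Finset.card_image_le
      simpa using this
    have h5 : ({A, B, C} : Finset Pt).card ≤ 3 := Finset.card_le_three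
    omega
  -- straight triples
  have hCh' : ∀ t ∈ Ch, ∃ a b, a < b ∧ G.Adj a b ∧
      [t.1, t.2.1, t.2.2] <:+: (ι a :: (P a b ++ [ι b])) ∧
      ∃ r s u, [r, s, u] <:+: M a b ∧ t = (g a b r, g a b s, g a b u) := by
    rintro ⟨x, y, z⟩ ht
    simp only [hCh, Finset.mem_filter] at ht
    obtain ⟨-, a, b, hab, hG, h⟩ := ht
    obtain ⟨r, s, u, hrsu, rfl, rfl, rfl⟩ := hinfix3 a b _ _ _ h
    exact ⟨a, b, hab, hG, h, r, s, u, hrsu, rfl⟩
  refine ⟨F, o, T, Ch, ι, P, ?_, ?_, ?_, hTcard, ?_, ?_⟩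
  · -- InstOk
    refine ⟨hF, hreal.mem, ?_, ?_, ?_⟩
    · rintro x (rfl | rfl | rfl) <;> simp [hT, ho]
    · intro x hx
      rw [hverts]
      simp only [hT, Finset.mem_union, Finset.mem_image, Finset.mem_insert,
        Finset.mem_singleton] at hx
      rcases hx with (⟨a, -, rfl⟩ | ⟨z, hz, rfl⟩) | rfl | rfl | rfl
      · exact hlabS _ (hZp a)
      · exact hlabS _ (hZX z hz)
      · exact hlabS _ hZA
      · exact hlabS _ hZB
      · exact hlabS _ hZC
    · intro t ht
      obtain ⟨a, b, hab, hG, hinf, r, s, u, hrsu, rfl⟩ := hCh' t ht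
      obtain ⟨hr, hs, hu, hrs, hsu⟩ := d3_consec3 (hMs a b) hrsu
      have hs0 : 0 < s := (hMb a b r hr).1.trans_lt hrs
      have hs1 : s < 1 := hsu.trans_le (hMb a b u hu).2
      have hsL : s ∈ L a b := by
        rcases hM01 a b s hs with rfl | rfl | h
        · exact absurd hs0 (lt_irrefl _)
        · exact absurd hs1 (lt_irrefl _)
        · exact h
      have hsX := ((hLX a b hG s).1 hsL).2.2
      obtain ⟨haE, hbE⟩ := d3_edge_ends hD hX hE1 hG hsX
        (d3_mem_seg.2 ⟨s, hs0.le, hs1.le, rfl⟩)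
      have hTM : ∀ t ∈ M a b, g a b t ∈ T := by
        intro t ht
        rcases hM01 a b t ht with rfl | rfl | h
        · simp only [g, d3f_zero]; exact hTE a haE
        · simp only [g, d3f_one]; exact hTE b hbE
        · exact hTX _ ((hLX a b hG t).1 h).2.2
      refine ⟨hTM r hr, hTM s hs, hTM u hu, ?_, ?_⟩
      · exact hadj' a b _ _ hab hG (List.IsInfix.trans ⟨[], [g a b u], rfl⟩ hinf)
      · exact hadj' a b _ _ hab hG (List.IsInfix.trans ⟨[g a b r], [], rfl⟩ hinf)
  · -- Rlz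
    refine ⟨q, hreal, ?_⟩
    intro t ht
    obtain ⟨a, b, hab, hG, hinf, r, s, u, hrsu, rfl⟩ := hCh' t ht
    obtain ⟨hr, hs, hu, hrs, hsu⟩ := d3_consec3 (hMs a b) hrsu
    simp only [Btw]
    rw [hqg a b hG r hr, hqg a b hG s hs, hqg a b hG u hu]
    refine ⟨fun h => (hrs.trans hsu).ne (d3f_inj (hpab _ _ hG) h), ?_⟩
    rw [d3_oseg_iff (hpab _ _ hG) (hrs.trans hsu)]
    exact ⟨s, hrs, hsu, rfl⟩
  · -- Wit
    have hιinj : ∀ a b, ι a = ι b → a = b := by
      intro a b h
      have := congrArg q h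
      simp only [ι] at this
      rw [hqlab _ (hZp a), hqlab _ (hZp b)] at this
      exact hD.1 this
    refine ⟨fun a b h => hιinj a b h, ?_, ?_, ?_, ?_, ?_⟩
    · intro a
      rw [hverts]
      exact hlabS _ (hZp a)
    · intro a b hab hG
      refine (List.isChain_isInfix _).imp ?_
      intro x y h
      exact hadj' a b x y hab hG h
    · intro a b hab hG x y z h
      obtain ⟨r, s, u, hrsu, rfl, rfl, rfl⟩ := hinfix3 a b _ _ _ h
      obtain ⟨hr, hs, hu, hrs, hsu⟩ := d3_consec3 (hMs a b) hrsu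
      simp only [hCh, Finset.mem_filter, Finset.mem_product]
      exact ⟨⟨hgS a b hG r hr, hgS a b hG s hs, hgS a b hG u hu⟩, a, b, hab, hG, h⟩
    · intro a b hab hG c hc
      simp only [P, List.mem_map] at hc
      obtain ⟨t, ht, e⟩ := hc
      have hX' := ((hLX a b hG t).1 ht).2.2
      have := congrArg q e
      simp only [g, ι] at this
      rw [hqlab _ (hZX _ hX'), hqlab _ (hZp c)] at this
      exact hXne _ hX' c this
    · refine le_trans ?_ (d3N_card.trans hk)
      refine Set.ncard_le_ncard ?_ (Set.toFinite _)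
      rintro ⟨⟨a, b⟩, ⟨c, d⟩⟩ ⟨hab, hcd, hac, hbc, hbd, hG, hG', x, hx, hx'⟩
      simp only [] at hab hcd hac hbc hbd hG hG' hx hx'
      simp only [P, List.mem_map] at hx hx'
      obtain ⟨t, ht, rfl⟩ := hx
      obtain ⟨t', ht', e⟩ := hx'
      have ht2 := (hLX a b hG t).1 ht
      have ht2' := (hLX c d hG' t').1 ht'
      have e' := congrArg q e
      simp only [g] at e'
      rw [hqlab _ (hZX _ ht2'.2.2), hqlab _ (hZX _ ht2.2.2)] at e'
      have had : a ≠ d := (hac.trans hcd).ne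
      refine ⟨hab, hcd, hac, hbc, hbd, d3f (p a) (p b) t, hG, hG', hac.ne, had, hbc, hbd,
        d3_mem_seg.2 ⟨t, ht2.1.le, ht2.2.1.le, rfl⟩, ?_⟩
      rw [← e']
      exact d3_mem_seg.2 ⟨t', ht2'.1.le, ht2'.2.1.le, rfl⟩
  · rw [hverts, hS, Finset.card_range]
    exact hZcard
  · intro a b
    simp only [P, List.length_map]
    exact (hLl a b).trans hXk

end Pool.Agent.H3.RCR
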