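import Pool.Agent.H3.RCR.Stmts2

/-! # RCR, module D3, part 1: geometry of drawings -/

namespace Pool.Agent.H3.RCR

/-- the line through `A` and `B` -/
noncomputable def d3f (A B : Pt) (t : ℝ) : Pt := AffineMap.lineMap A B t

theorem d3f_inj {A B : Pt} (h : A ≠ B) : Function.Injective (d3f A B) :=
  AffineMap.lineMap_injective ℝ h

@[simp] theorem d3f_zero (A B : Pt) : d3f A B 0 = A := AffineMap.lineMap_apply_zero _ _

@[simp] theorem d3f_one (A B : Pt) : d3f A B 1 = B := AffineMap.lineMap_apply_one _ _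

theorem d3f_eq (A B : Pt) (t : ℝ) :
    d3f A B t = (t * (B.1 - A.1) + A.1, t * (B.2 - A.2) + A.2) := by
  simp [d3f, AffineMap.lineMap_apply_module']
  rfl

theorem d3f_seg (A B : Pt) (s t : ℝ) :
    segment ℝ (d3f A B s) (d3f A B t) = d3f A B '' segment ℝ s t :=
  (image_segment ℝ (AffineMap.lineMap A B : ℝ →ᵃ[ℝ] Pt) s t).symm

theorem d3f_oseg (A B : Pt) (s t : ℝ) :
    openSegment ℝ (d3f A B s) (d3f A B t) = d3f A B '' openSegment ℝ s t :=
  (image_openSegment ℝ (AffineMap.lineMap A B : ℝ →ᵃ[ℝ] Pt) s t).symm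

theorem d3_mem_seg {A B z : Pt} : z ∈ segment ℝ A B ↔ ∃ t : ℝ, 0 ≤ t ∧ t ≤ 1 ∧ d3f A B t = z := by
  rw [segment_eq_image_lineMap]
  constructor
  · rintro ⟨t, ⟨h0, h1⟩, e⟩; exact ⟨t, h0, h1, e⟩
  · rintro ⟨t, h0, h1, e⟩; exact ⟨t, ⟨h0, h1⟩, e⟩

/-- `z` is a crossing point of the edges `a b` and `c d` -/
def Cr {n : ℕ} (G : SimpleGraph (Fin n)) (p : Fin n → Pt) (a b c d : Fin n) (z : Pt) : Prop :=
  G.Adj a b ∧ G.Adj c d ∧ a ≠ c ∧ a ≠ d ∧ b ≠ c ∧ b ≠ d ∧ z ∈ segment ℝ (p a) (p b) ∧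
    z ∈ segment ℝ (p c) (p d)

section

variable {n : ℕ} {G : SimpleGraph (Fin n)} {p : Fin n → Pt}

theorem Cr.symm {a b c d : Fin n} {z : Pt} (h : Cr G p a b c d z) : Cr G p c d a b z := by
  obtain ⟨h1, h2, h3, h4, h5, h6, h7, h8⟩ := h
  exact ⟨h2, h1, h3.symm, h5.symm, h4.symm, h6.symm, h8, h7⟩

theorem Cr.swap {a b c d : Fin n} {z : Pt} (h : Cr G p a b c d z) : Cr G p b a c d z := by
  obtain ⟨h1, h2, h3, h4, h5, h6, h7, h8⟩ := h
  exact ⟨h1.symm, h2, h5, h6, h3, h4, by rwa [segment_symm], h8⟩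

theorem Cr.swap' {a b c d : Fin n} {z : Pt} (h : Cr G p a b c d z) : Cr G p a b d c z :=
  h.symm.swap.symm

/-- a crossing point is not a vertex -/
theorem Cr.ne (hD : IsDrawing G p) {a b c d : Fin n} {z : Pt} (h : Cr G p a b c d z)
    (v : Fin n) : z ≠ p v := by
  rintro rfl
  obtain ⟨h1, h2, h3, h4, h5, h6, h7, h8⟩ := h
  rcases hD.2 _ _ _ h1 h7 with rfl | rfl
  · rcases hD.2 _ _ _ h2 h8 with rfl | rfl
    · exact h3 rfl
    · exact h4 rfl
  · rcases hD.2 _ _ _ h2 h8 with rfl | rfl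
    · exact h5 rfl
    · exact h6 rfl

/-- two edges with a common end meet only there -/
theorem d3_adj (hD : IsDrawing G p) {a b c : Fin n} (hab : G.Adj a b) (hac : G.Adj a c)
    (hbc : b ≠ c) {z : Pt} (h1 : z ∈ segment ℝ (p a) (p b)) (h2 : z ∈ segment ℝ (p a) (p c)) :
    z = p a := by
  have h1' := h1
  have h2' := h2
  obtain ⟨s, hs0, hs1, e1⟩ := d3_mem_seg.1 h1
  obtain ⟨t, ht0, ht1, e2⟩ := d3_mem_seg.1 h2
  by_contra hz
  have hs : s ≠ 0 := by
    rintro rfl
    rw [d3f_zero] at e1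
    exact hz e1.symm
  have ht : t ≠ 0 := by
    rintro rfl
    rw [d3f_zero] at e2
    exact hz e2.symm
  have hs' : 0 < s := lt_of_le_of_ne hs0 hs.symm
  have ht' : 0 < t := lt_of_le_of_ne ht0 ht.symm
  have e : d3f (p a) (p b) s = d3f (p a) (p c) t := e1.trans e2.symm
  rw [d3f_eq, d3f_eq] at e
  have ex := congrArg Prod.fst e
  have ey := congrArg Prod.snd e
  simp only [] at ex ey
  rcases le_total s t with hst | hst
  · have hc : p c ∈ segment ℝ (p a) (p b) := by
      rw [d3_mem_seg]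
      refine ⟨s / t, by positivity, (div_le_one ht').2 hst, ?_⟩
      rw [d3f_eq]
      refine Prod.ext ?_ ?_
      · simp only []
        field_simp
        linarith
      · simp only []
        field_simp
        linarith
    rcases hD.2 _ _ _ hab hc with h | h
    · exact hac.ne h.symm
    · exact hbc h.symm
  · have hc : p b ∈ segment ℝ (p a) (p c) := by
      rw [d3_mem_seg]
      refine ⟨t / s, by positivity, (div_le_one hs').2 hst, ?_⟩
      rw [d3f_eq]
      refine Prod.ext ?_ ?_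
      · simp only []
        field_simp
        linarith
      · simp only []
        field_simp
        linarith
    rcases hD.2 _ _ _ hac hc with h | h
    · exact hab.ne h.symm
    · exact hbc h

/-- two disjoint edges have at most one common point -/
theorem Cr.uniq (hD : IsDrawing G p) {a b c d : Fin n} {z w : Pt} (h : Cr G p a b c d z)
    (h' : Cr G p a b c d w) : z = w := by
  obtain ⟨h1, h2, h3, h4, h5, h6, h7, h8⟩ := h
  obtain ⟨-, -, -, -, -, -, h7', h8'⟩ := h'
  by_contra hzw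
  have h8o := h8
  obtain ⟨s, hs0, hs1, e1⟩ := d3_mem_seg.1 h7
  obtain ⟨s', hs0', hs1', e1'⟩ := d3_mem_seg.1 h7'
  obtain ⟨t, ht0, ht1, e2⟩ := d3_mem_seg.1 h8
  obtain ⟨t', ht0', ht1', e2'⟩ := d3_mem_seg.1 h8'
  have hss : s ≠ s' := by
    rintro rfl
    exact hzw (e1.symm.trans e1')
  have htt : t' - t ≠ 0 := by
    intro h
    have : t' = t := by linarith
    subst this
    exact hzw (e2.symm.trans e2')
  have hpab : p a ≠ p b := fun h => h1.ne (hD.1 h)
  have ea : d3f (p a) (p b) s = d3f (p c) (p d) t := e1.trans e2.symm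
  have eb : d3f (p a) (p b) s' = d3f (p c) (p d) t' := e1'.trans e2'.symm
  rw [d3f_eq, d3f_eq] at ea eb
  have eax := congrArg Prod.fst ea
  have eay := congrArg Prod.snd ea
  have ebx := congrArg Prod.fst eb
  have eby := congrArg Prod.snd eb
  simp only [] at eax eay ebx eby
  set lam := (s' - s) / (t' - t) with hlam
  have hl : lam * (t' - t) = s' - s := by rw [hlam]; field_simp
  have hx : (p d).1 - (p c).1 = lam * ((p b).1 - (p a).1) := by
    have : (t' - t) * ((p d).1 - (p c).1) = (t' - t) * (lam * ((p b).1 - (p a).1)) := by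
      linear_combination ebx.symm - eax.symm - ((p b).1 - (p a).1) * hl
    exact mul_left_cancel₀ htt this
  have hy : (p d).2 - (p c).2 = lam * ((p b).2 - (p a).2) := by
    have : (t' - t) * ((p d).2 - (p c).2) = (t' - t) * (lam * ((p b).2 - (p a).2)) := by
      linear_combination eby.symm - eay.symm - ((p b).2 - (p a).2) * hl
    exact mul_left_cancel₀ htt this
  have hc : p c = d3f (p a) (p b) (s - t * lam) := by
    rw [d3f_eq]
    refine Prod.ext ?_ ?_
    · simp only []
      linear_combination (-1 : ℝ) * eax - t * hx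
    · simp only []
      linear_combination (-1 : ℝ) * eay - t * hy
  have hd : p d = d3f (p a) (p b) (s + (1 - t) * lam) := by
    rw [d3f_eq]
    refine Prod.ext ?_ ?_
    · simp only []
      linear_combination (-1 : ℝ) * eax + (1 - t) * hx
    · simp only []
      linear_combination (-1 : ℝ) * eay + (1 - t) * hy
  set γ := s - t * lam with hγ
  set δ := s + (1 - t) * lam with hδ
  have hγ' : ¬ (0 ≤ γ ∧ γ ≤ 1) := by
    intro hh
    have : p c ∈ segment ℝ (p a) (p b) := d3_mem_seg.2 ⟨γ, hh.1, hh.2, hc.symm⟩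
    rcases hD.2 _ _ _ h1 this with h | h
    · exact h3 h.symm
    · exact h5 h.symm
  have hδ' : ¬ (0 ≤ δ ∧ δ ≤ 1) := by
    intro hh
    have : p d ∈ segment ℝ (p a) (p b) := d3_mem_seg.2 ⟨δ, hh.1, hh.2, hd.symm⟩
    rcases hD.2 _ _ _ h1 this with h | h
    · exact h4 h.symm
    · exact h6 h.symm
  have hs : s ∈ Set.uIcc γ δ := by
    rw [hc, hd, d3f_seg, segment_eq_uIcc, ← e1] at h8o
    obtain ⟨u, hu, e⟩ := h8o
    rw [d3f_inj hpab e] at hu
    exact hu
  have h0 : (0 : ℝ) ∈ Set.uIcc γ δ := by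
    rw [Set.mem_uIcc] at hs ⊢
    rcases hs with ⟨ha, hb⟩ | ⟨ha, hb⟩
    · left
      constructor
      · by_contra hh
        push Not at hh
        exact hγ' ⟨hh.le, by linarith⟩
      · linarith
    · right
      constructor
      · by_contra hh
        push Not at hh
        exact hδ' ⟨hh.le, by linarith⟩
      · linarith
  have : p a ∈ segment ℝ (p c) (p d) := by
    rw [hc, hd, d3f_seg, segment_eq_uIcc]
    exact ⟨0, h0, d3f_zero _ _⟩
  rcases hD.2 _ _ _ h2 this with h | h
  · exact h3 h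
  · exact h4 h

end

/-- strictly inside the negatively oriented triangle `A B C` -/
def D3In (A B C z : Pt) : Prop := orient A B z < 0 ∧ orient B C z < 0 ∧ orient C A z < 0

theorem d3_orient_comb {A B u v : Pt} {s t : ℝ} (h : s + t = 1) :
    orient A B (s • u + t • v) = s * orient A B u + t * orient A B v := by
  have hs : s = 1 - t := by linarith
  subst hs
  simp only [orient, dt, Prod.fst_sub, Prod.snd_sub, Prod.fst_add, Prod.snd_add, Prod.smul_fst,
    Prod.smul_snd, smul_eq_mul]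
  ring

theorem D3In.seg {A B C u v z : Pt} (hu : D3In A B C u) (hv : D3In A B C v)
    (hz : z ∈ segment ℝ u v) : D3In A B C z := by
  obtain ⟨s, t, hs, ht, hst, rfl⟩ := hz
  have key : ∀ x y : ℝ, x < 0 → y < 0 → s * x + t * y < 0 := by
    intro x y hx hy
    rcases hs.eq_or_lt with rfl | hs'
    · have : t = 1 := by linarith
      subst this
      linarith
    · nlinarith [mul_neg_of_pos_of_neg hs' hx, mul_nonneg ht (neg_nonneg.2 hy.le)]
  refine ⟨?_, ?_, ?_⟩
  · rw [d3_orient_comb hst]; exact key _ _ hu.1 hv.1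
  · rw [d3_orient_comb hst]; exact key _ _ hu.2.1 hv.2.1
  · rw [d3_orient_comb hst]; exact key _ _ hu.2.2 hv.2.2

theorem d3_outer {n : ℕ} (p : Fin n → Pt) : ∃ A B C : Pt, orient A B C < 0 ∧ A ≠ B ∧ B ≠ C ∧
    C ≠ A ∧ ¬ D3In A B C A ∧ ¬ D3In A B C B ∧ ¬ D3In A B C C ∧ ∀ a, D3In A B C (p a) := by
  obtain ⟨R0, hR0⟩ := (Set.finite_range (fun a => |(p a).1| + |(p a).2|)).bddAbove
  have hR : ∀ a, |(p a).1| + |(p a).2| ≤ R0 := fun a => hR0 ⟨a, rfl⟩
  set R := |R0| + 1 with hRdef
  have hRpos : 0 < R := by positivity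
  have hb : ∀ a, |(p a).1| < R ∧ |(p a).2| < R := by
    intro a
    have h1 := hR a
    have h2 := abs_nonneg (p a).1
    have h3 := abs_nonneg (p a).2
    have h4 := le_abs_self R0
    constructor <;> linarith
  have o1 : orient (-R, -R) (-R, 3 * R) (3 * R, -R) < 0 := by
    simp only [orient, dt, Prod.fst_sub, Prod.snd_sub]
    nlinarith [mul_pos hRpos hRpos]
  refine ⟨(-R, -R), (-R, 3 * R), (3 * R, -R), o1, ?_, ?_, ?_, ?_, ?_, ?_, ?_⟩
  · intro h
    have := congrArg Prod.snd h
    simp only [] at this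
    linarith
  · intro h
    have := congrArg Prod.snd h
    simp only [] at this
    linarith
  · intro h
    have := congrArg Prod.fst h
    simp only [] at this
    linarith
  · rintro ⟨h, -, -⟩
    simp only [orient, dt, Prod.fst_sub, Prod.snd_sub] at h
    nlinarith
  · rintro ⟨h, -, -⟩
    simp only [orient, dt, Prod.fst_sub, Prod.snd_sub] at h
    nlinarith
  · rintro ⟨-, h, -⟩
    simp only [orient, dt, Prod.fst_sub, Prod.snd_sub] at h
    nlinarith
  · intro a
    obtain ⟨h1, h2⟩ := hb a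
    rw [abs_lt] at h1 h2
    refine ⟨?_, ?_, ?_⟩
    · simp only [orient, dt, Prod.fst_sub, Prod.snd_sub]
      nlinarith [mul_pos hRpos (show 0 < (p a).1 + R by linarith)]
    · simp only [orient, dt, Prod.fst_sub, Prod.snd_sub]
      nlinarith [mul_pos hRpos (show 0 < 2 * R - (p a).1 - (p a).2 by linarith)]
    · simp only [orient, dt, Prod.fst_sub, Prod.snd_sub]
      nlinarith [mul_pos hRpos (show 0 < (p a).2 + R by linarith)]

end Pool.Agent.H3.RCR
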