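import Pool.Agent.H60.RCR.D3a

/-! # RCR, module D3, part 2: the finite sets of crossings, labels, sorted lists -/

namespace Pool.Agent.H3.RCR

section

variable {n : ℕ} {G : SimpleGraph (Fin n)} {p : Fin n → Pt}

/-- ordered pairs of ordered non-adjacent edges that cross -/
def D3N (G : SimpleGraph (Fin n)) (p : Fin n → Pt) : Set ((Fin n × Fin n) × (Fin n × Fin n)) :=
  {q | q.1.1 < q.1.2 ∧ q.2.1 < q.2.2 ∧ q.1.1 < q.2.1 ∧ q.1.2 ≠ q.2.1 ∧ q.1.2 ≠ q.2.2 ∧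
    ∃ z, Cr G p q.1.1 q.1.2 q.2.1 q.2.2 z}

theorem d3N_card : (D3N G p).ncard ≤ crossings G p := by
  unfold crossings
  refine Set.ncard_le_ncard_of_injOn (fun q : (Fin n × Fin n) × (Fin n × Fin n) =>
      s(s(q.1.1, q.1.2), s(q.2.1, q.2.2))) ?_ ?_ (Set.toFinite _)
  · rintro ⟨⟨a, b⟩, ⟨c, d⟩⟩ ⟨-, -, -, -, -, z, h1, h2, h3, h4, h5, h6, h7, h8⟩
    exact ⟨a, b, c, d, rfl, h1, h2, h3, h4, h5, h6, z, h7, h8⟩
  · rintro ⟨⟨a, b⟩, ⟨c, d⟩⟩ ⟨h1, h2, h3, -⟩ ⟨⟨a', b'⟩, ⟨c', d'⟩⟩ ⟨h1', h2', h3', -⟩ e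
    simp only [] at h1 h2 h3 h1' h2' h3'
    simp only [Sym2.eq_iff] at e
    have hab : ∀ x y x' y' : Fin n, x < y → x' < y' → (x = x' ∧ y = y') ∨ (x = y' ∧ y = x') →
        x = x' ∧ y = y' := by
      rintro x y x' y' hxy hxy' (h | ⟨rfl, rfl⟩)
      · exact h
      · exact absurd (hxy.trans hxy') (lt_irrefl _)
    rcases e with ⟨e1, e2⟩ | ⟨e1, e2⟩
    · obtain ⟨rfl, rfl⟩ := hab _ _ _ _ h1 h1' e1
      obtain ⟨rfl, rfl⟩ := hab _ _ _ _ h2 h2' e2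
      rfl
    · obtain ⟨rfl, rfl⟩ := hab _ _ _ _ h1 h2' e1
      obtain ⟨rfl, rfl⟩ := hab _ _ _ _ h2 h1' e2
      exact absurd (h3.trans h3') (lt_irrefl _)

/-- every crossing gives an element of `D3N` -/
theorem d3N_of_cr {a b c d : Fin n} {z : Pt} (h : Cr G p a b c d z) :
    ∃ q ∈ D3N G p, Cr G p q.1.1 q.1.2 q.2.1 q.2.2 z ∧
      (a = q.1.1 ∨ a = q.1.2 ∨ a = q.2.1 ∨ a = q.2.2) ∧
      (b = q.1.1 ∨ b = q.1.2 ∨ b = q.2.1 ∨ b = q.2.2) := by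
  -- order the first edge, the second edge, then the pair
  have main : ∀ a b c d : Fin n, a < b → c < d → Cr G p a b c d z →
      ∃ q ∈ D3N G p, Cr G p q.1.1 q.1.2 q.2.1 q.2.2 z ∧
        ((a = q.1.1 ∧ b = q.1.2) ∨ (a = q.2.1 ∧ b = q.2.2)) := by
    intro a b c d hab hcd h
    rcases lt_or_gt_of_ne h.2.2.1 with hac | hac
    · exact ⟨((a, b), (c, d)), ⟨hab, hcd, hac, h.2.2.2.2.1, h.2.2.2.2.2.1, z, h⟩, h,
        Or.inl ⟨rfl, rfl⟩⟩
    · have h' := h.symm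
      exact ⟨((c, d), (a, b)), ⟨hcd, hab, hac, h'.2.2.2.2.1, h'.2.2.2.2.2.1, z, h'⟩, h',
        Or.inr ⟨rfl, rfl⟩⟩
  rcases lt_or_gt_of_ne h.1.ne with h1 | h1
  · rcases lt_or_gt_of_ne h.2.1.ne with h2 | h2
    · obtain ⟨q, hq, hcr, he⟩ := main a b c d h1 h2 h
      refine ⟨q, hq, hcr, ?_⟩
      rcases he with ⟨e1, e2⟩ | ⟨e1, e2⟩ <;> simp [e1, e2]
    · obtain ⟨q, hq, hcr, he⟩ := main a b d c h1 h2 h.swap'
      refine ⟨q, hq, hcr, ?_⟩
      rcases he with ⟨e1, e2⟩ | ⟨e1, e2⟩ <;> simp [e1, e2]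
  · rcases lt_or_gt_of_ne h.2.1.ne with h2 | h2
    · obtain ⟨q, hq, hcr, he⟩ := main b a c d h1 h2 h.swap
      refine ⟨q, hq, hcr, ?_⟩
      rcases he with ⟨e1, e2⟩ | ⟨e1, e2⟩ <;> simp [e1, e2]
    · obtain ⟨q, hq, hcr, he⟩ := main b a d c h1 h2 h.swap.swap'
      refine ⟨q, hq, hcr, ?_⟩
      rcases he with ⟨e1, e2⟩ | ⟨e1, e2⟩ <;> simp [e1, e2]

open Classical in
theorem d3_cross {k : ℕ} (hD : IsDrawing G p) (hk : crossings G p ≤ k) :
    ∃ (X : Finset Pt) (E1 : Finset (Fin n)), X.card ≤ k ∧ E1.card ≤ 4 * k ∧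
      (∀ z, z ∈ X ↔ ∃ a b c d, Cr G p a b c d z) ∧
      ∀ a b c d z, Cr G p a b c d z → a ∈ E1 ∧ b ∈ E1 := by
  set N : Finset ((Fin n × Fin n) × (Fin n × Fin n)) := (Set.toFinite (D3N G p)).toFinset with hN
  have hNcard : N.card ≤ k := by
    rw [hN, ← Set.ncard_eq_toFinset_card]
    exact d3N_card.trans hk
  have hmemN : ∀ q, q ∈ N ↔ q ∈ D3N G p := fun q => by rw [hN, Set.Finite.mem_toFinset]
  let cp : (Fin n × Fin n) × (Fin n × Fin n) → Pt := fun q =>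
    if h : ∃ z, Cr G p q.1.1 q.1.2 q.2.1 q.2.2 z then h.choose else 0
  have hcp : ∀ q z, Cr G p q.1.1 q.1.2 q.2.1 q.2.2 z → cp q = z := by
    intro q z hz
    have h : ∃ z, Cr G p q.1.1 q.1.2 q.2.1 q.2.2 z := ⟨z, hz⟩
    simp only [cp, dif_pos h]
    exact h.choose_spec.uniq hD hz
  refine ⟨N.image cp, N.biUnion (fun q => {q.1.1, q.1.2, q.2.1, q.2.2}),
    Finset.card_image_le.trans hNcard, ?_, ?_, ?_⟩
  · refine (Finset.card_biUnion_le_card_mul _ _ 4 ?_).trans ?_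
    · intro q _
      exact Finset.card_le_four
    · rw [mul_comm]
      exact Nat.mul_le_mul_left 4 hNcard
  · intro z
    rw [Finset.mem_image]
    constructor
    · rintro ⟨q, hq, rfl⟩
      rw [hmemN] at hq
      obtain ⟨z, hz⟩ := hq.2.2.2.2.2
      exact ⟨_, _, _, _, (hcp q z hz) ▸ hz⟩
    · rintro ⟨a, b, c, d, h⟩
      obtain ⟨q, hq, hcr, -⟩ := d3N_of_cr h
      exact ⟨q, (hmemN q).2 hq, hcp q z hcr⟩
  · intro a b c d z h
    obtain ⟨q, hq, -, ha, hb⟩ := d3N_of_cr h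
    simp only [Finset.mem_biUnion, Finset.mem_insert, Finset.mem_singleton]
    exact ⟨⟨q, (hmemN q).2 hq, ha⟩, ⟨q, (hmemN q).2 hq, hb⟩⟩

/-- an edge through a crossing point has its ends in `E1` -/
theorem d3_edge_ends (hD : IsDrawing G p) {X : Finset Pt} {E1 : Finset (Fin n)}
    (hX : ∀ z, z ∈ X ↔ ∃ a b c d, Cr G p a b c d z)
    (hE : ∀ a b c d z, Cr G p a b c d z → a ∈ E1 ∧ b ∈ E1) {a b : Fin n} (hab : G.Adj a b)
    {z : Pt} (hz : z ∈ X) (hz' : z ∈ segment ℝ (p a) (p b)) : a ∈ E1 ∧ b ∈ E1 := by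
  obtain ⟨a', b', c', d', h⟩ := (hX z).1 hz
  have hne := h.ne hD
  by_cases h1 : a = a'
  · subst h1
    by_cases h2 : b = b'
    · subst h2
      exact hE _ _ _ _ _ h
    · exact absurd (d3_adj hD hab h.1 h2 hz' h.2.2.2.2.2.2.1) (hne a)
  by_cases h2 : a = b'
  · subst h2
    by_cases h3 : b = a'
    · subst h3
      exact (hE _ _ _ _ _ h).symm
    · exact absurd (d3_adj hD hab h.1.symm h3 hz' h.swap.2.2.2.2.2.2.1) (hne a)
  by_cases h3 : b = a'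
  · subst h3
    rw [segment_symm] at hz'
    exact absurd (d3_adj hD hab.symm h.1 h2 hz' h.2.2.2.2.2.2.1) (hne b)
  by_cases h4 : b = b'
  · subst h4
    rw [segment_symm] at hz'
    exact absurd (d3_adj hD hab.symm h.1.symm h1 hz' h.swap.2.2.2.2.2.2.1) (hne b)
  exact hE a b a' b' z ⟨hab, h.1, h1, h2, h3, h4, hz', h.2.2.2.2.2.2.1⟩

end

/-- labels for a finite set of points -/
theorem d3_label (Z : Finset Pt) : ∃ (lab : Pt → ℕ) (q : ℕ → Pt),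
    (∀ z ∈ Z, lab z ∈ Finset.range Z.card ∧ q (lab z) = z) ∧
    ∀ i ∈ Finset.range Z.card, q i ∈ Z ∧ lab (q i) = i := by
  classical
  let e := Z.equivFin
  refine ⟨fun z => if h : z ∈ Z then (e ⟨z, h⟩).val else 0,
    fun i => if h : i < Z.card then ((e.symm ⟨i, h⟩ : Z) : Pt) else 0, ?_, ?_⟩
  · intro z hz
    simp only [dif_pos hz]
    refine ⟨Finset.mem_range.2 (e ⟨z, hz⟩).2, ?_⟩
    simp
  · intro i hi
    have hi' : i < Z.card := Finset.mem_range.1 hi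
    simp only [dif_pos hi']
    refine ⟨(e.symm ⟨i, hi'⟩).2, ?_⟩
    simp

/-- sorted list of the parameters of the crossing points on an edge -/
theorem d3_list (A B : Pt) (X : Finset Pt) (h : A ≠ B) : ∃ L : List ℝ, L.Pairwise (· < ·) ∧
    L.length ≤ X.card ∧ ∀ t, t ∈ L ↔ 0 < t ∧ t < 1 ∧ d3f A B t ∈ X := by
  classical
  set S : Finset ℝ := (X.preimage (d3f A B) ((d3f_inj h).injOn)).filter (fun t => 0 < t ∧ t < 1)
    with hS
  refine ⟨S.sort (· ≤ ·), Finset.sortedLT_sort S |>.pairwise, ?_, ?_⟩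
  · rw [Finset.length_sort]
    refine Finset.card_le_card_of_injOn (d3f A B) ?_ ((d3f_inj h).injOn)
    intro t ht
    have := (Finset.mem_filter.1 ht).1
    exact Finset.mem_preimage.1 this
  · intro t
    rw [Finset.mem_sort, hS, Finset.mem_filter, Finset.mem_preimage]
    tauto

/-- consecutive elements of a strictly sorted list -/
theorem d3_consec {L : List ℝ} (h : L.Pairwise (· < ·)) {s t : ℝ} (hst : [s, t] <:+: L) :
    s ∈ L ∧ t ∈ L ∧ s < t ∧ ∀ u ∈ L, ¬ (s < u ∧ u < t) := by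
  obtain ⟨l1, l2, rfl⟩ := hst
  rw [List.append_assoc, List.pairwise_append, List.cons_append, List.cons_append,
    List.nil_append, List.pairwise_cons, List.pairwise_cons] at h
  obtain ⟨h1, ⟨h2, h3, h4⟩, h5⟩ := h
  refine ⟨by simp, by simp, h2 t (by simp), ?_⟩
  rintro u hu ⟨ha, hb⟩
  simp only [List.append_assoc, List.cons_append, List.nil_append, List.mem_append,
    List.mem_cons] at hu
  rcases hu with hu | rfl | rfl | hu
  · have := h5 u hu s (by simp)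
    linarith
  · exact lt_irrefl _ ha
  · exact lt_irrefl _ hb
  · have := h3 u hu
    linarith

theorem d3_consec3 {L : List ℝ} (h : L.Pairwise (· < ·)) {s t u : ℝ} (hst : [s, t, u] <:+: L) :
    s ∈ L ∧ t ∈ L ∧ u ∈ L ∧ s < t ∧ t < u := by
  have h1 := d3_consec h (s := s) (t := t) (List.IsInfix.trans ⟨[], [u], rfl⟩ hst)
  have h2 := d3_consec h (s := t) (t := u) (List.IsInfix.trans ⟨[s], [], rfl⟩ hst)
  exact ⟨h1.1, h1.2.1, h2.2.1, h1.2.2.1, h2.2.2.1⟩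

end Pool.Agent.H3.RCR
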